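import Pool.Agent.H223.CC.Man

set_option autoImplicit false

open scoped Manifold ContDiff Topology
open Set Filter

universe u v w

namespace Pool.Agent.Results.MP_5c499f_an.FundamentalGroupClassification

open Pool.Agent.H721R2 Pool.Agent.H789R2.AN Pool.Agent.H223.CE

/-- **Classification of Anosov diffeomorphisms by the action on the fundamental group.**
Let `g : N → N` be a `C¹` Anosov diffeomorphism of a closed connected manifold.  Let `Q : Y → N` be
a connected Galois covering with deck group `Γ` (for instance the universal covering), with a proper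
metric on `Y` that is invariant under `Γ` (for instance the lifted Riemannian distance), and let
`G` be a lift of `g` to `Y`, inducing the automorphism `φ` of `Γ`.  Suppose that
* `G` is coarsely hyperbolic: for some `N ≥ 1` and `R`,
  `max (d(Gᴺx, Gᴺy), d(G⁻ᴺx, G⁻ᴺy)) ≥ 2 d(x, y)` if `d(x, y) ≥ R` (for the universal covering this
  only depends on `φ`, and says that `φ` is hyperbolic in the large-scale sense of Bestvina and
  Feighn);
* for each lift `ψ = γ⁻¹Gⁿ` of each iterate `gⁿ`, `n ≥ 1`, to `Y` there is a `K ≥ 1` such that `ψᴷ`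
  has fewer than `2ᴷ` fixed points (for instance each `ψ` has at most one fixed point, as for
  hyperbolic automorphisms of infranilmanifolds).

Let `f : M → M` be a homeomorphism of a closed connected manifold, `P : X → M` a connected Galois
covering with the same deck group `Γ` and an invariant proper metric, and `F` a lift of `f` to `X`
that induces the same automorphism `φ` of `Γ`.  Then the following holds.

(A) There is exactly one continuous `Γ`-equivariant map `H : X → Y` with `H ∘ F = G ∘ H` (so `f` is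
semiconjugate to `g` by a map inducing the identity of `Γ`).

(B) If `dim M ≥ dim N`, then `f` and `g` are topologically conjugate by a homeomorphism `h : M → N`
that is covered by a `Γ`-equivariant homeomorphism `H : X → Y` with `H ∘ F = G ∘ H` if and only if
two points of `X` whose full orbits under `F` stay at a bounded distance are equal.

(C) If `f` is a `C¹` Anosov diffeomorphism and `F` is coarsely hyperbolic, then the following are
equivalent, without an assumption on the dimensions.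
* `f` and `g` are topologically conjugate in the sense of (B).
* For each lift `ψ` of each iterate `fⁿ`, `n ≥ 1`, to `X` there is a `K ≥ 1` such that `ψᴷ` has
  fewer than `2ᴷ` fixed points.
* Each lift of each iterate `fⁿ`, `n ≥ 1`, to `X` has at most one fixed point.
* Two points of `X` whose full orbits under `F` stay at a bounded distance are equal.

In particular, Anosov diffeomorphisms with coarsely hyperbolic lifts and few fixed points (in this
sense) are topologically conjugate if their actions on the fundamental group are conjugate.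
Nothing is assumed on `Γ` or on transitivity, and no algebraic model is used. -/
theorem result (E' : Type u) [NormedAddCommGroup E'] [NormedSpace ℝ E'] [FiniteDimensional ℝ E']
    (N : Type v) [TopologicalSpace N] [T2Space N] [CompactSpace N] [ConnectedSpace N]
    [ChartedSpace E' N] [IsManifold 𝓘(ℝ, E') ∞ N] (g : Diffeomorph 𝓘(ℝ, E') 𝓘(ℝ, E') N N 1)
    (Es' Eu' : ∀ x : N, Submodule ℝ (TangentSpace 𝓘(ℝ, E') x)) (hg : IsAnosov g Es' Eu')
    (E : Type u) [NormedAddCommGroup E] [NormedSpace ℝ E] [FiniteDimensional ℝ E]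
    (M : Type v) [TopologicalSpace M] [T2Space M] [CompactSpace M] [ConnectedSpace M]
    [ChartedSpace E M] [IsManifold 𝓘(ℝ, E) ∞ M] (f : M ≃ₜ M)
    (Γ : Type*) [Group Γ]
    (X : Type w) [MetricSpace X] [ProperSpace X] [ConnectedSpace X]
    [MulAction Γ X] [IsIsometricSMul Γ X] [FaithfulSMul Γ X]
    (Y : Type w) [MetricSpace Y] [ProperSpace Y] [ConnectedSpace Y]
    [MulAction Γ Y] [IsIsometricSMul Γ Y] [FaithfulSMul Γ Y]
    (P : X → M) (hP : IsCoveringMap P) (hPs : Function.Surjective P)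
    (hPΓ : ∀ x y : X, P x = P y ↔ ∃ γ : Γ, γ • x = y)
    (Q : Y → N) (hQ : IsCoveringMap Q) (hQs : Function.Surjective Q)
    (hQΓ : ∀ x y : Y, Q x = Q y ↔ ∃ γ : Γ, γ • x = y)
    (F : X ≃ₜ X) (hF : ∀ x, P (F x) = f (P x)) (G : Y ≃ₜ Y) (hG : ∀ y, Q (G y) = g (Q y))
    (φ : Γ ≃* Γ) (hφF : ∀ (γ : Γ) (x : X), F (γ • x) = φ γ • F x)
    (hφG : ∀ (γ : Γ) (y : Y), G (γ • y) = φ γ • G y)
    (hCG : CoarselyHyperbolic G)
    (hfew : ∀ n : ℕ, 1 ≤ n → ∀ γ : Γ, ∃ K : ℕ, 1 ≤ K ∧
      {y : Y | (fun y => γ⁻¹ • G^[n] y)^[K] y = y}.encard < 2 ^ K) :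
    (∃! H : C(X, Y), (∀ (γ : Γ) (x : X), H (γ • x) = γ • H x) ∧ ∀ x, H (F x) = G (H x)) ∧
    (Module.finrank ℝ E' ≤ Module.finrank ℝ E →
      ((∃ (H : X ≃ₜ Y) (h : M ≃ₜ N), (∀ (γ : Γ) (x : X), H (γ • x) = γ • H x) ∧
        (∀ x, H (F x) = G (H x)) ∧ (∀ x, Q (H x) = h (P x)) ∧ ∀ m, h (f m) = g (h m)) ↔
      ∀ (x y : X) (B : ℝ), (∀ n : ℕ, dist (F^[n] x) (F^[n] y) ≤ B) →
        (∀ n : ℕ, dist (F.symm^[n] x) (F.symm^[n] y) ≤ B) → x = y)) ∧
    ∀ (f₁ : Diffeomorph 𝓘(ℝ, E) 𝓘(ℝ, E) M M 1)
      (Es Eu : ∀ x : M, Submodule ℝ (TangentSpace 𝓘(ℝ, E) x)), IsAnosov f₁ Es Eu →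
      (∀ m, f₁ m = f m) → CoarselyHyperbolic F →
      List.TFAE [
        ∃ (H : X ≃ₜ Y) (h : M ≃ₜ N), (∀ (γ : Γ) (x : X), H (γ • x) = γ • H x) ∧
          (∀ x, H (F x) = G (H x)) ∧ (∀ x, Q (H x) = h (P x)) ∧ ∀ m, h (f m) = g (h m),
        ∀ n : ℕ, 1 ≤ n → ∀ γ : Γ, ∃ K : ℕ, 1 ≤ K ∧
          {x : X | (fun x => γ⁻¹ • F^[n] x)^[K] x = x}.encard < 2 ^ K,
        ∀ n : ℕ, 1 ≤ n → ∀ (γ : Γ) (x y : X), F^[n] x = γ • x → F^[n] y = γ • y → x = y,
        ∀ (x y : X) (B : ℝ), (∀ n : ℕ, dist (F^[n] x) (F^[n] y) ≤ B) →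
          (∀ n : ℕ, dist (F.symm^[n] x) (F.symm^[n] y) ≤ B) → x = y] :=
  Pool.Agent.H223.CC.man_class g Es' Eu' hg f P hP hPs hPΓ Q hQ hQs hQΓ F hF G hG φ
    hφF hφG hCG hfew

end Pool.Agent.Results.MP_5c499f_an.FundamentalGroupClassification
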