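import Pool.Agent.H223.PG.Rates

set_option autoImplicit false

open scoped Manifold ContDiff Topology Pointwise
open Set Filter

namespace Pool.Agent.Results.MP_5c499f_an.PinchedGrowth

open Pool.Agent.H721R2 Pool.Agent.H789R2.AN Pool.Agent.H223.CE Pool.Agent.H223.PG

/-- **Anosov diffeomorphisms with pinched large-scale rates: the fundamental group has polynomial
growth.**
Let `f` be a `C¹` Anosov diffeomorphism of a closed connected manifold `M`.  Let `P : X → M` be a
connected Galois covering with deck group `Γ` (for instance the universal covering, `Γ = π₁(M)`),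
with a proper metric on `X` that is invariant under `Γ` (for instance the lifted Riemannian
distance), and let `F` be a lift of `f` to `X`.

(A) Suppose that each stable leaf of `X` meets each unstable leaf in exactly one point, that `F`
contracts the stable leaves and `F⁻¹` the unstable leaves in logarithmic time at large scale
(`LogContracts`: for some `μ > 1` and `C`, `d(F⁻ⁿ x, F⁻ⁿ y) ≤ C` if `x`, `y` are on the same unstable
leaf and `μⁿ ≥ C (1 + d(x, y))`, and the same for `F` and the stable leaves), and that the brackets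
are polynomially bounded (`PolyBrackets`: for some `A` and `k`,
`log (1 + d(y, w)) ≤ A + k log (1 + d(x, y))` if `w` is the common point of the stable leaf of `x`
and the unstable leaf of `y`).  Then `Γ` has polynomial growth (`PolyGrowth`): there is an exponent
`d` such that for every finite `S ⊆ Γ` the number of products of `n` elements of `S` is at most
`C (n + 1) ^ d`, `C = C(S)`.

(B) Suppose that a stable leaf and an unstable leaf of `X` have at most one common point and that
`F` or `F⁻¹` is pinched at large scale (`Pinched`): there are rates `μ, ν, Λ, Λ' > 1` such that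
`F⁻¹` and `F` contract the unstable and the stable leaves in logarithmic time with the rates `μ` and
`ν`, `d(Fⁿ x, Fⁿ y) ≤ C Λⁿ (1 + d(x, y))` and `d(F⁻ⁿ x, F⁻ⁿ y) ≤ C Λ'ⁿ (1 + d(x, y))` for all `x`,
`y`, and `log Λ / log μ < 1 + log ν / log Λ' + log ν / log Λ`.  Then each stable leaf of `X` meets
each unstable leaf in exactly one point, `f` is topologically transitive and `Γ` has polynomial
growth.

(C) Suppose that `F` is hyperbolic at large scale with rates `μ, ν, Λ, Λ' > 1` (`RatesPinched`): for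
some `N ≥ 1` and `C`, if `d(x, y) ≥ C` then `d(Fᴺ x, Fᴺ y) ≥ μ d(x, y)` or
`d(F⁻ᴺ x, F⁻ᴺ y) ≥ ν d(x, y)`; `d(Fᴺ x, Fᴺ y) ≤ Λ d(x, y) + C` and
`d(F⁻ᴺ x, F⁻ᴺ y) ≤ Λ' d(x, y) + C` for all `x`, `y`; and
`(log Λ / log μ - 1) (log Λ' / log ν - 1) < 4` (for the universal covering the existence of such
rates is a property of the automorphism `f_*` of `π₁(M)`).  Suppose moreover that for each lift
`φ = γ⁻¹Fⁿ` of each iterate `fⁿ`, `n ≥ 1`, to `X` there is a `K ≥ 1` such that `φᴷ` has fewer than
`2ᴷ` fixed points (for instance each `φ` has at most one fixed point).  Then each stable leaf of `X`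
meets each unstable leaf in exactly one point, `f` is topologically transitive and `Γ` has
polynomial growth.

(By Gromov's theorem `Γ` is then virtually nilpotent; if `X` is the universal covering, `X` is
homeomorphic to `ℝⁿ`, and it follows from the theorems of Franks and Manning that `f` is
topologically conjugate to a hyperbolic automorphism of an infranilmanifold.) -/
theorem result (E : Type*) [NormedAddCommGroup E] [NormedSpace ℝ E] [FiniteDimensional ℝ E]
    (M : Type*) [TopologicalSpace M] [T2Space M] [CompactSpace M] [ConnectedSpace M]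
    [ChartedSpace E M] [IsManifold 𝓘(ℝ, E) ∞ M] (f : Diffeomorph 𝓘(ℝ, E) 𝓘(ℝ, E) M M 1)
    (Es Eu : ∀ x : M, Submodule ℝ (TangentSpace 𝓘(ℝ, E) x)) (hA : IsAnosov f Es Eu)
    (X : Type*) [MetricSpace X] [ProperSpace X] [ConnectedSpace X]
    (Γ : Type*) [Group Γ] [MulAction Γ X] [IsIsometricSMul Γ X] [FaithfulSMul Γ X]
    (P : X → M) (hP : IsCoveringMap P) (hsurj : Function.Surjective P)
    (hΓ : ∀ x y : X, P x = P y ↔ ∃ γ : Γ, γ • x = y)
    (F : X ≃ₜ X) (hF : ∀ x, P (F x) = f (P x)) :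
    ((∀ x y : X, ∃! w, Asymp F x w ∧ Asymp F.symm y w) →
      (∃ μ : ℝ, 1 < μ ∧ LogContracts F.symm μ) → (∃ ν : ℝ, 1 < ν ∧ LogContracts F ν) →
      PolyBrackets F → PolyGrowth Γ) ∧
    ((∀ x y : X, Asymp F x y → Asymp F.symm x y → x = y) → Pinched F ∨ Pinched F.symm →
      (∀ x y : X, ∃! w, Asymp F x w ∧ Asymp F.symm y w) ∧ TopTransitive f ∧ PolyGrowth Γ) ∧
    (RatesPinched F →
      (∀ n : ℕ, 1 ≤ n → ∀ γ : Γ, ∃ K : ℕ, 1 ≤ K ∧
        {x : X | (fun x => γ⁻¹ • F^[n] x)^[K] x = x}.encard < 2 ^ K) →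
      (∀ x y : X, ∃! w, Asymp F x w ∧ Asymp F.symm y w) ∧ TopTransitive f ∧ PolyGrowth Γ) := by
  have keyA : (∀ x y : X, ∃! w, Asymp F x w ∧ Asymp F.symm y w) →
      (∃ μ : ℝ, 1 < μ ∧ LogContracts F.symm μ) → (∃ ν : ℝ, 1 < ν ∧ LogContracts F ν) →
      PolyBrackets F → PolyGrowth Γ := by
    rintro hGP ⟨μ, hμ, hLu⟩ ⟨ν, hν, hLs⟩ hPB
    exact man_growth f Es Eu hA P hP hsurj hΓ F hF hGP (N := 1) le_rfl hμ hν
      (by rwa [Function.iterate_one]) (by rwa [Function.iterate_one]) hPB
  refine ⟨keyA, fun hU hpin => ?_, fun hR hN => ?_⟩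
  · have h1 := (man_bb f Es Eu hA P hP hsurj hΓ F hF).1 hU (bounded_of_pinched hpin)
    refine ⟨h1.2, h1.1, ?_⟩
    rcases hpin with hpin | hpin
    · have h2 := poly_bracket hpin
      obtain ⟨μ, ν, Λ, Λ', hμ, hν, hΛ, hΛ', hLu, hLs, -⟩ := hpin
      exact keyA h1.2 ⟨μ, hμ, hLu⟩ ⟨ν, hν, hLs⟩ h2
    · have h2 : PolyBrackets F.symm := poly_bracket hpin
      obtain ⟨μ, ν, Λ, Λ', hμ, hν, hΛ, hΛ', hLu, hLs, -⟩ := hpin
      exact keyA h1.2 ⟨ν, hν, hLs⟩ ⟨μ, hμ, hLu⟩ (polyBrackets_symm h2)
  · obtain ⟨hD, N, μ, ν, hN1, hμ, hν, hLu, hLs, hPB⟩ := rates_main hR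
    have h1 := ((man_tfae f Es Eu hA P hP hsurj hΓ F hF (Or.inr hD)).out 4 0).mp hN
    exact ⟨h1.2, h1.1, man_growth f Es Eu hA P hP hsurj hΓ F hF h1.2 hN1 hμ hν hLu hLs hPB⟩

end Pool.Agent.Results.MP_5c499f_an.PinchedGrowth
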