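import Pool.Agent.H223.RN.Count

set_option autoImplicit false

open scoped Manifold ContDiff Topology
open Set Filter

namespace Pool.Agent.Results.MP_5c499f_an.ReidemeisterNumbers

open Pool.Agent.H721R2 Pool.Agent.H789R2.AN Pool.Agent.H223.CE Pool.Agent.H223.RN

/-- **Periodic points of Anosov diffeomorphisms and Reidemeister numbers.**
Let `f` be a `C¹` Anosov diffeomorphism of a closed connected manifold `M`.  Let `P : X → M` be a
connected Galois covering with deck group `Γ` (for instance the universal covering, `Γ = π₁(M)`),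
with a proper metric on `X` that is invariant under `Γ` (for instance the lifted Riemannian
distance), and let `F` be a lift of `f` to `X`, with `F ∘ γ = φ(γ) ∘ F` for `γ ∈ Γ` (so `φ = f_*`).
Suppose that `F` is coarsely hyperbolic: for some `N ≥ 1` and `R`,
`max (d(Fᴺx, Fᴺy), d(F⁻ᴺx, F⁻ᴺy)) ≥ 2 d(x, y)` if `d(x, y) ≥ R` (for the universal covering this
only depends on `f_*`, and says that `f_*` is a hyperbolic automorphism of `π₁(M)` at large scale).
Nothing is assumed on `Γ` or on the dimensions.  Then the following are equivalent.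
* `f` is topologically transitive, and each stable leaf and each unstable leaf of `X` have exactly
  one common point.
* Each unstable leaf of `X` is a closed subset of `X`.
* For each lift `ψ = γ⁻¹Fⁿ` of each iterate `fⁿ`, `n ≥ 1`, to `X` there is a `K ≥ 1` such that `ψᴷ`
  has fewer than `2ᴷ` fixed points.
* Each lift of each iterate `fⁿ`, `n ≥ 1`, to `X` has exactly one fixed point.

In this case, for each `n ≥ 1`, the automorphism `φⁿ` fixes no element of `Γ` other than `1`, and the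
number of fixed points of `fⁿ` is finite and equal to the Reidemeister number of `φⁿ`, i.e. to the
number of classes of `Γ` under the twisted conjugacy `γ ~ φⁿ(η) γ η⁻¹`. -/
theorem result (E : Type*) [NormedAddCommGroup E] [NormedSpace ℝ E] [FiniteDimensional ℝ E]
    (M : Type*) [TopologicalSpace M] [T2Space M] [CompactSpace M] [ConnectedSpace M]
    [ChartedSpace E M] [IsManifold 𝓘(ℝ, E) ∞ M] (f : Diffeomorph 𝓘(ℝ, E) 𝓘(ℝ, E) M M 1)
    (Es Eu : ∀ x : M, Submodule ℝ (TangentSpace 𝓘(ℝ, E) x)) (hA : IsAnosov f Es Eu)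
    (X : Type*) [MetricSpace X] [ProperSpace X] [ConnectedSpace X]
    (Γ : Type*) [Group Γ] [MulAction Γ X] [IsIsometricSMul Γ X] [FaithfulSMul Γ X]
    (P : X → M) (hP : IsCoveringMap P) (hsurj : Function.Surjective P)
    (hΓ : ∀ x y : X, P x = P y ↔ ∃ γ : Γ, γ • x = y)
    (F : X ≃ₜ X) (hF : ∀ x, P (F x) = f (P x))
    (φ : Γ ≃* Γ) (hφ : ∀ (γ : Γ) (x : X), F (γ • x) = φ γ • F x)
    (hCH : CoarselyHyperbolic F) :
    List.TFAE [
      TopTransitive f ∧ ∀ x y : X, ∃! w, Asymp F x w ∧ Asymp F.symm y w,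
      ∀ x : X, IsClosed {y | Asymp F.symm x y},
      ∀ n : ℕ, 1 ≤ n → ∀ γ : Γ, ∃ K : ℕ, 1 ≤ K ∧
        {x : X | (fun x => γ⁻¹ • F^[n] x)^[K] x = x}.encard < 2 ^ K,
      ∀ n : ℕ, 1 ≤ n → ∀ γ : Γ, ∃! x : X, F^[n] x = γ • x] ∧
    ((∀ n : ℕ, 1 ≤ n → ∀ γ : Γ, ∃! x : X, F^[n] x = γ • x) →
      ∀ n : ℕ, 1 ≤ n → (∀ γ : Γ, φ^[n] γ = γ → γ = 1) ∧ {m : M | f^[n] m = m}.Finite ∧
        {m : M | f^[n] m = m}.encard = reidemeister φ n) := by
  refine ⟨man_fix f Es Eu hA P hP hsurj hΓ F hF hCH, fun h n hn => ⟨?_, ?_, ?_⟩⟩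
  · intro γ hγ
    obtain ⟨m, e, he, hemb, -⟩ := exists_embedding_euclidean_of_compact (I := 𝓘(ℝ, E)) (M := M)
    let _ : MetricSpace M := hemb.isEmbedding.comapMetricSpace e
    obtain ⟨x, hx, hux⟩ := h n hn 1
    have hx' : F^[n] x = (1 : Γ) • x := hx
    have h1 : F^[n] (γ • x) = (1 : Γ) • (γ • x) := by
      rw [iter_smul hφ, hγ, hx', one_smul, one_smul]
    exact Pool.Agent.H223.CC.free_of_faithful hP hΓ (hux _ h1)
  · exact man_finite (E := E) f.toHomeomorph P hP hsurj hΓ F hF n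
      (fun γ x y hx hy => (h n hn γ).unique hx hy)
  · obtain ⟨m, e, he, hemb, -⟩ := exists_embedding_euclidean_of_compact (I := 𝓘(ℝ, E)) (M := M)
    let _ : MetricSpace M := hemb.isEmbedding.comapMetricSpace e
    exact card_fix hsurj hΓ hF hφ (fun γ x hx => Pool.Agent.H223.CC.free_of_faithful hP hΓ hx) n
      (h n hn)

end Pool.Agent.Results.MP_5c499f_an.ReidemeisterNumbers
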